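import Mathlib
import Pool.Agent.U656.NC.Sym
import Pool.Agent.U656.NC.Slice2

set_option autoImplicit false

/-!
# Nef classes with dominated rare coefficients

For very general points let `T` be a set of at most eight points and let `D = (c; x)` be a class
which is nonnegative on the positive cone and on the `(-1)`-curves, with `x` constant on `T` (and at
most `c / 3` there if `T` has `1`, `2` or `4` points). Suppose that the rare coefficients at the
other points, those which do not occur at least `144` times, are dominated by the smaller ones: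
they have scales which grow by factors of two, and the square of the scale of a rare coefficient `w`
is at most `1 / 144` of the sum of the squares of the coefficients which are at most `w / 2`. Then
`D` is nef. The same is true, for any number of points in `T`, if `D ^ 2 ≥ 0` and the coefficients on
`T` are equal to `c / 3` or to one other number `u ≤ c / 3`, with the sum at most `3 c` and the sum of
the squares at most `8 c ^ 2 / 9`.
-/

namespace Pool.Agent.Results.MP_309968_ag.DominatedCoefficients

open Pool.Agent.R355.ConeAct Pool.Agent.U656.NC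

theorem result (n : ℕ) :
    ∃ f : ℕ → MvPolynomial (Fin n × Fin 2) ℂ, (∀ k, f k ≠ 0) ∧
      ∀ P : Fin n → Fin 2 → ℂ,
        (∀ k, MvPolynomial.eval (fun q : Fin n × Fin 2 => P q.1 q.2) (f k) ≠ 0) →
        ∀ (T : Finset (Fin n)) (D : ℝ × (Fin n → ℝ)) (u : ℝ) (R : Set ℝ) (s : ℝ → ℝ),
          T.card + 36 ≤ n → Tame (fun i : {i // i ∉ T} => D.2 i.1) R s →
          -- the dual of the cone spanned by the positive cone and the `(-1)`-curves
          (T.card ≤ 8 → (∀ i ∈ T, D.2 i = u) → (T.card ∈ ({1, 2, 4} : Finset ℕ) → 3 * u ≤ D.1) →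
            (∀ x ∈ bigCone P, 0 ≤ dot D x) → ∀ x ∈ curvCone P, 0 ≤ dot D x) ∧
          -- any number of points in `T`
          (0 ≤ D.1 → 0 ≤ dot D D → (∀ i, 0 ≤ D.2 i) → 0 ≤ u → 3 * u ≤ D.1 →
            (∀ i ∈ T, D.2 i = u ∨ 3 * D.2 i = D.1) → ∑ i ∈ T, D.2 i ≤ 3 * D.1 →
            9 * ∑ i ∈ T, D.2 i ^ 2 ≤ 8 * D.1 ^ 2 → ∀ x ∈ curvCone P, 0 ≤ dot D x) := by
  obtain ⟨f, hf, h⟩ := Pool.Agent.TH167.SH.exists_fam (Fin n × Fin 2)
  obtain ⟨g, hg, h'⟩ := fills n
  obtain ⟨F, hF, hF'⟩ := two_conds hf hg
  refine ⟨F, hF, fun P hP0 T D u R s hn htame => ?_⟩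
  have hP := (h _).1 (hF' _ hP0).1
  have hFills := h' P (hF' _ hP0).2
  refine ⟨fun hT hu hT' hD => ?_, fun h0 hDD hnn hu0 hu hDT hs1 hs2 =>
    nef_tame hFills hn h0 hDD hu0 hu hDT hs1 hs2 (fun i _ => hnn i) htame⟩
  have hpos := pos_of_dual (D := D) fun y h1 h2 => hD y (gen_mem_bigCone (Or.inr ⟨h1, h2⟩))
  have hneg : MinusOneNonneg P D := fun y hy h1 h2 =>
    hD y (gen_mem_bigCone (Or.inl ⟨hy, h1, h2⟩))
  by_cases hT2 : T.card ∈ ({1, 2, 4} : Finset ℕ)
  · have hne : T.Nonempty := by
      rw [← Finset.card_pos]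
      simp only [Finset.mem_insert, Finset.mem_singleton] at hT2
      omega
    obtain ⟨t, ht⟩ := hne
    exact nef_tame8 hFills hn hT hpos.1 hpos.2 (by rw [← hu t ht]; exact hneg.nonneg t) (hT' hT2)
      (fun i hi => Or.inl (hu i hi)) (fun i _ => hneg.nonneg i) htame
  · refine tame_slice hP hFills hn ?_ hpos.1 hpos.2 hu htame hneg
    simp only [Finset.mem_insert, Finset.mem_singleton] at hT2 ⊢
    omega

end Pool.Agent.Results.MP_309968_ag.DominatedCoefficients
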