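import Mathlib
import Pool.Agent.U390.DY.Neg
import Pool.Agent.TH167.SH.Fam

set_option autoImplicit false

/-!
# The closed cone of curves and multi-scale vectors

Let `X` be the blow-up of the complex projective plane at `n` very general points. The closed cone of
curves is contained in (so it is equal to) the closed convex cone generated by the positive cone, by
the classes of the `(-1)`-curves, and by the classes of those irreducible curves `C`, `C ^ 2 < 0`, for
which every class `(d'; w')` in the orbit under the quadratic transformations is far above all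
multi-scale vectors: for every multi-scale vector `v ≤ w'`

`∑ w' i ^ 2 - ∑ v i ^ 2 > ∑ v i - 3 d'`, and
`∑ w' i ^ 2 - ∑ v i ^ 2 > (∑ v i) / 2` if `36 v i + 18 ≤ ∑ v` for all `i`.

The multi-scale lists of multiplicities (`Pool.Agent.U390.DY.Multi`) are obtained from start lists
(`Pool.Agent.U390.DY.Start`: nearly equal numbers with a tail, or at least `37` equal numbers) by
* adding numbers `0` and `1`;
* splitting: a number `b ≥ 1` is replaced by the four numbers `⌊(2 b + j) / 4⌋`, `j = -1, 0, 1, 2`,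
  of about half its size;
* doubling: if `s + a {b}` and `s + a {b + 1}` are multi-scale lists then so is
  `s + 2 a {⌊b / 2⌋} + 2 a {⌊(b + 1) / 2⌋}`, if the sum of its `x (x + 1)` is at most
  `(a ⌊(b + 1) / 2⌋) ^ 2`.

So multiplicities of about `M, M / 2, M / 4, …` occur together, in any proportion.
-/

namespace Pool.Agent.Results.MP_309968_ag.MultiScaleOrbits

open MvPolynomial Pool.Agent.TH167 Pool.Agent.TH167.SHDefs
open Pool.Agent.U390.DY (Multi)

/-- The classes (in the coordinates degree, multiplicities) of the irreducible curves on the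
blow-up of the plane at the points `p i = (p i 0 : p i 1 : 1)`: the class `(d; m)` of the proper
transform of an irreducible plane curve of degree `d` whose multiplicity at `p i` is exactly `m i`,
and the classes `(0; -e_i)` of the exceptional curves. -/
def curveClasses {n : ℕ} (p : Fin n → Fin 2 → ℂ) : Set (ℝ × (Fin n → ℝ)) :=
  {v : ℝ × (Fin n → ℝ) | ∃ (F : MvPolynomial (Fin 3) ℂ) (d : ℕ) (m : Fin n → ℕ),
      Curve p F d m ∧ v = ((d : ℝ), fun i => (m i : ℝ))} ∪
    {v : ℝ × (Fin n → ℝ) | ∃ i : Fin n,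
      v = ((0 : ℝ), (Pi.single i (-1 : ℝ) : Fin n → ℝ))}

/-- The classes of the `(-1)`-curves. -/
def minusOneClasses {n : ℕ} (p : Fin n → Fin 2 → ℂ) : Set (ℝ × (Fin n → ℝ)) :=
  {v | v ∈ curveClasses p ∧ v.1 ^ 2 - ∑ i, v.2 i ^ 2 = -1 ∧ -3 * v.1 + ∑ i, v.2 i = -1}

/-- The positive cone. -/
def positive (n : ℕ) : Set (ℝ × (Fin n → ℝ)) := {v | 0 ≤ v.1 ∧ ∑ i, v.2 i ^ 2 ≤ v.1 ^ 2}

/-- The reflection of the class `a = (d; w)`, `d H - ∑ w l E l`, in the class
`H - E (i 0) - E (i 1) - E (i 2)`. -/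
def reflect {s : ℕ} (i : Fin 3 → Fin s) (a : ℤ × (Fin s → ℤ)) : ℤ × (Fin s → ℤ) :=
  (a.1 + (a.1 - a.2 (i 0) - a.2 (i 1) - a.2 (i 2)),
    fun l => a.2 l + if l = i 0 ∨ l = i 1 ∨ l = i 2 then a.1 - a.2 (i 0) - a.2 (i 1) - a.2 (i 2)
      else 0)

/-- Finitely many reflections carry the class `a` to `b`. -/
def Carries {s : ℕ} (a b : ℤ × (Fin s → ℤ)) : Prop :=
  Relation.ReflTransGen
    (fun a b : ℤ × (Fin s → ℤ) => ∃ i : Fin 3 → Fin s, Function.Injective i ∧ b = reflect i a) a b

/-- `w'` is far above all multi-scale vectors, in degree `d'`. -/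
def Far {n : ℕ} (d' : ℕ) (w' : Fin n → ℕ) : Prop :=
  ∀ v : Fin n → ℕ, Multi (Finset.univ.val.map v) → (∀ i, v i ≤ w' i) →
    ∑ i, (v i : ℝ) - 3 * d' < ∑ i, (w' i : ℝ) ^ 2 - ∑ i, (v i : ℝ) ^ 2 ∧
    ((∀ i, 36 * v i + 18 ≤ ∑ j, v j) →
      (∑ i, (v i : ℝ)) / 2 < ∑ i, (w' i : ℝ) ^ 2 - ∑ i, (v i : ℝ) ^ 2)

/-- The classes `(d; m)` of the irreducible curves `C`, `C ^ 2 < 0`, for which all classes in the
orbit are of the form `(d'; w')` with `d', w' i ≥ 0` and far above all multi-scale vectors. -/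
def farClasses {n : ℕ} (p : Fin n → Fin 2 → ℂ) : Set (ℝ × (Fin n → ℝ)) :=
  {v | ∃ (F : MvPolynomial (Fin 3) ℂ) (d : ℕ) (m : Fin n → ℕ),
    Curve p F d m ∧ inter d m d m < 0 ∧
    (∀ b : ℤ × (Fin n → ℤ), Carries ((d : ℤ), fun l => (m l : ℤ)) b →
      ∃ (d' : ℕ) (w' : Fin n → ℕ), b = ((d' : ℤ), fun l => (w' l : ℤ)) ∧ Far d' w') ∧
    v = ((d : ℝ), fun i => (m i : ℝ))}

/-- The closed convex cone generated by a set. -/
def closedCone {n : ℕ} (S : Set (ℝ × (Fin n → ℝ))) : Set (ℝ × (Fin n → ℝ)) :=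
  closure ((Submodule.span {c : ℝ // 0 ≤ c} S : Set (ℝ × (Fin n → ℝ))))

theorem result (n : ℕ) :
    ∃ Z : ℕ → MvPolynomial (Fin n × Fin 2) ℂ, (∀ k, Z k ≠ 0) ∧
      ∀ p : Fin n → Fin 2 → ℂ,
        (∀ k, MvPolynomial.eval (fun ij : Fin n × Fin 2 => p ij.1 ij.2) (Z k) ≠ 0) →
        closedCone (curveClasses p) ⊆
          closedCone (minusOneClasses p ∪ positive n ∪ farClasses p) := by
  obtain ⟨Z, hZ, h⟩ := SH.exists_fam (Fin n × Fin 2)
  refine ⟨Z, hZ, fun p hp => closure_mono (Submodule.span_mono ?_)⟩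
  rintro v (⟨C, d, w, hC, rfl⟩ | ⟨i, rfl⟩)
  · by_cases hneg : inter d w d w < 0
    · by_cases hne : MinusOne p C d w
      · refine Or.inl (Or.inl ⟨Or.inl ⟨C, d, w, hC, rfl⟩, ?_, ?_⟩)
        · have h1 := hne.self
          unfold inter at h1
          have h2 : (((d : ℤ) * d - ∑ i, (w i : ℤ) * w i : ℤ) : ℝ) = ((-1 : ℤ) : ℝ) := by rw [h1]
          push_cast at h2
          simp only
          rw [Finset.sum_congr rfl fun i _ => sq (w i : ℝ), sq]
          exact h2
        · have h1 := hne.canonical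
          unfold interK at h1
          have h2 : ((-3 * (d : ℤ) + ∑ i, (w i : ℤ) : ℤ) : ℝ) = ((-1 : ℤ) : ℝ) := by rw [h1]
          push_cast at h2
          exact h2
      · right
        refine ⟨C, d, w, hC, hneg, fun b hb => ?_, rfl⟩
        have hP := (h _).1 hp
        obtain ⟨h1, h2, h3⟩ := SH.curve_iff.1 hC
        have hne' : ¬ (SH.ip d w d w = -1 ∧ SH.kk d w = 1) := fun h0 =>
          hne ⟨hC, by rw [SH.inter_eq, h0.1], by rw [SH.interK_eq, h0.2]⟩
        have hb' : Pool.Agent.TH442.NF.Ch (Pool.Agent.TH442.NF.cls d w) b := hb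
        obtain ⟨d', w', rfl, hpos, hip, -⟩ := Pool.Agent.Y939.NC.orbit_eff hP h1 h2 h3 hne' hb'
        refine ⟨d', w', rfl, fun v hv hle => ?_⟩
        have hb := Pool.Agent.U390.DY.multi_bound hP hv hle hpos
        obtain ⟨c1, c2⟩ := Pool.Agent.Y939.NC.num_bound hb
        have hI : (inter d w d w : ℝ) = (d' : ℝ) ^ 2 - ∑ i, (w' i : ℝ) ^ 2 := by
          rw [SH.inter_eq, ← hip]
          unfold SH.ip
          push_cast
          rw [pow_two]
          congr 1
          exact Finset.sum_congr rfl fun i _ => by ring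
        have hneg' : (inter d w d w : ℝ) < 0 := by exact_mod_cast hneg
        refine ⟨by linarith, fun h36 => ?_⟩
        have := c2 h36
        linarith
    · refine Or.inl (Or.inr ⟨Nat.cast_nonneg d, ?_⟩)
      push Not at hneg
      unfold inter at hneg
      have h2 : (0 : ℝ) ≤ (((d : ℤ) * d - ∑ i, (w i : ℤ) * w i : ℤ) : ℝ) := by exact_mod_cast hneg
      push_cast at h2
      simp only
      rw [Finset.sum_congr rfl fun i _ => sq (w i : ℝ), sq]
      linarith
  · refine Or.inl (Or.inl ⟨Or.inr ⟨i, rfl⟩, ?_, ?_⟩)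
    · simp only
      rw [Finset.sum_eq_single i]
      · rw [Pi.single_eq_same]
        norm_num
      · intro b _ hb
        rw [Pi.single_eq_of_ne hb]
        norm_num
      · intro h1
        exact absurd (Finset.mem_univ i) h1
    · simp only
      rw [Finset.sum_eq_single i]
      · rw [Pi.single_eq_same]
        norm_num
      · intro b _ hb
        rw [Pi.single_eq_of_ne hb]
      · intro h1
        exact absurd (Finset.mem_univ i) h1

end Pool.Agent.Results.MP_309968_ag.MultiScaleOrbits
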