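import Mathlib
import Pool.Agent.U605.ST.Neg
import Pool.Agent.R355.CanDeg2
import Pool.Agent.TH167.SH.Conv
import Pool.Agent.TH167.SH.Defs

set_option autoImplicit false

/-!
# The closed cone of curves and multiplicities with a packed tail

Let `n ≥ 36` of the numbers `v i` be equal to `M`, `n ≤ 4 (√n - 5) M` (so `M` may be of the order
`√n / 4`), let `tail` be the set of the others which are at least `2`, and suppose that the squares of
the sizes `v i`, `i` in the tail, fit into a rectangle `T × H` which fits beside the `n` numbers `M`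
(`PackedTail`). On the blow-up of the complex projective plane at very general points

* no irreducible curve `C` with such multiplicities has `C ^ 2 < 0`;
* the closed cone of curves is contained in (so it is equal to) the closed convex cone generated by
  the positive cone, by the classes of the `(-1)`-curves, and by the classes of those irreducible
  curves `C`, `C ^ 2 < 0`, for which every class `(e; u)` in the orbit under the reflections in the
  classes `H - E i - E j - E l` is the class of an irreducible curve, is not of this kind, and has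
  `∑ v i (v i + 1) ≤ e (e + 3)` for all `v ≤ u` of this kind.
-/

namespace Pool.Agent.Results.MP_309968_ag.PackedTailCurves

open MvPolynomial Pool.Agent.TH167 Pool.Agent.TH167.SHDefs

/-- The tail: the points whose multiplicity is at least `2` and different from `M`. -/
def tail {h : ℕ} (M : ℕ) (m : Fin h → ℕ) : Finset (Fin h) :=
  Finset.univ.filter fun i => 2 ≤ m i ∧ m i ≠ M

/-- The room beside `n` points of multiplicity `M`. -/
noncomputable def room (n M : ℕ) : ℝ := (3 * √(n : ℝ) - 5 - (n : ℝ) / (4 * M)) / 4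

/-- `n ≥ 36` equal numbers `M`, numbers `0` and `1`, and a packed tail. -/
def PackedTail {h : ℕ} (v : Fin h → ℕ) : Prop :=
  ∃ n M T H : ℕ, 36 ≤ n ∧ (Finset.univ.filter fun i => v i = M).card = n ∧
    (n : ℝ) ≤ 4 * (√(n : ℝ) - 5) * M ∧
    (∀ i ∈ tail M v, v i ≤ T) ∧ 2 * ∑ i ∈ tail M v, v i ^ 2 + T ^ 2 ≤ T * H ∧
    ((H ≤ 2 * M ∧ (T : ℝ) ≤ room n M) ∨ room n M * H ≤ (2 * room n M - T) * M) ∧
    ∑ i ∈ tail M v, (v i : ℝ) * (v i + 1) ≤ (√(n : ℝ) - 5) * M

/-- The classes (in the coordinates degree, multiplicities) of the irreducible curves on the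
blow-up of the plane at the points `p i = (p i 0 : p i 1 : 1)`: the class `(d; m)` of the proper
transform of an irreducible plane curve of degree `d` whose multiplicity at `p i` is exactly `m i`,
and the classes `(0; -e_i)` of the exceptional curves. -/
def curveClasses {n : ℕ} (p : Fin n → Fin 2 → ℂ) : Set (ℝ × (Fin n → ℝ)) :=
  {v : ℝ × (Fin n → ℝ) | ∃ (F : MvPolynomial (Fin 3) ℂ) (d : ℕ) (m : Fin n → ℕ),
      Curve p F d m ∧ v = ((d : ℝ), fun i => (m i : ℝ))} ∪
    {v : ℝ × (Fin n → ℝ) | ∃ i : Fin n,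
      v = ((0 : ℝ), (Pi.single i (-1 : ℝ) : Fin n → ℝ))}

/-- The classes of the `(-1)`-curves. -/
def minusOneClasses {n : ℕ} (p : Fin n → Fin 2 → ℂ) : Set (ℝ × (Fin n → ℝ)) :=
  {v | v ∈ curveClasses p ∧ v.1 ^ 2 - ∑ i, v.2 i ^ 2 = -1 ∧ -3 * v.1 + ∑ i, v.2 i = -1}

/-- The positive cone. -/
def positive (n : ℕ) : Set (ℝ × (Fin n → ℝ)) := {v | 0 ≤ v.1 ∧ ∑ i, v.2 i ^ 2 ≤ v.1 ^ 2}

/-- The reflection of the class `a = (d; w)`, `d H - ∑ w l E l`, in the class
`H - E (i 0) - E (i 1) - E (i 2)`. -/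
def reflect {s : ℕ} (i : Fin 3 → Fin s) (a : ℤ × (Fin s → ℤ)) : ℤ × (Fin s → ℤ) :=
  (a.1 + (a.1 - a.2 (i 0) - a.2 (i 1) - a.2 (i 2)),
    fun l => a.2 l + if l = i 0 ∨ l = i 1 ∨ l = i 2 then a.1 - a.2 (i 0) - a.2 (i 1) - a.2 (i 2)
      else 0)

/-- Finitely many reflections carry the class `a` to `b`. -/
def Carries {s : ℕ} (a b : ℤ × (Fin s → ℤ)) : Prop :=
  Relation.ReflTransGen
    (fun a b : ℤ × (Fin s → ℤ) => ∃ i : Fin 3 → Fin s, Function.Injective i ∧ b = reflect i a) a b

/-- The classes `(d; m)` of the irreducible curves `C`, `C ^ 2 < 0`, for which every class in the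
orbit is the class `(e; u)` of an irreducible curve, `u` has no packed tail, and
`∑ v i (v i + 1) ≤ e (e + 3)` for all `v ≤ u` with a packed tail. -/
def farClasses {n : ℕ} (p : Fin n → Fin 2 → ℂ) : Set (ℝ × (Fin n → ℝ)) :=
  {x | ∃ (F : MvPolynomial (Fin 3) ℂ) (d : ℕ) (m : Fin n → ℕ),
    Curve p F d m ∧ inter d m d m < 0 ∧
    (∀ b : ℤ × (Fin n → ℤ), Carries ((d : ℤ), fun l => (m l : ℤ)) b →
      ∃ (e : ℕ) (u : Fin n → ℕ) (G : MvPolynomial (Fin 3) ℂ),
        b = ((e : ℤ), fun l => (u l : ℤ)) ∧ Curve p G e u ∧ ¬ PackedTail u ∧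
        ∀ v : Fin n → ℕ, PackedTail v → (∀ i, v i ≤ u i) →
          ∑ i, v i * (v i + 1) ≤ e * (e + 3)) ∧
    x = ((d : ℝ), fun i => (m i : ℝ))}

/-- The closed convex cone generated by a set. -/
def closedCone {n : ℕ} (S : Set (ℝ × (Fin n → ℝ))) : Set (ℝ × (Fin n → ℝ)) :=
  closure ((Submodule.span {c : ℝ // 0 ≤ c} S : Set (ℝ × (Fin n → ℝ))))

/-- the expected dimension at points with algebraically independent coordinates -/
theorem expDim {h : ℕ} {v : Fin h → ℕ} (hv : PackedTail v) {P : Fin h → Fin 2 → ℂ}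
    (hP : AlgebraicIndependent ℚ (fun ij : Fin h × Fin 2 => P ij.1 ij.2)) (d : ℕ) :
    Pool.Agent.H932R3.ExpDim ℂ v P d := by
  obtain ⟨n, M, T, H, hn, hcard, hM, hT, hTH, hroom, hsum⟩ := hv
  obtain ⟨F, hF, hF'⟩ := Pool.Agent.U605.ST.expDim_packed v hn hM hcard hT hTH hroom hsum
  exact hF' P (fun h0 => hF (hP.eq_zero_of_aeval_eq_zero F h0)) d

/-- no curve with a packed tail is negative -/
theorem no_neg {h : ℕ} {w : Fin h → ℕ} (hw : PackedTail w) {P : Fin h → Fin 2 → ℂ}
    (hP : AlgebraicIndependent ℚ (fun ij : Fin h × Fin 2 => P ij.1 ij.2)) {d : ℕ}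
    {C : MvPolynomial (Fin 3) ℂ} (hC : Curve P C d w) : 0 ≤ inter d w d w := by
  by_contra hneg
  push Not at hneg
  obtain ⟨n, M, T, H, hn, hcard, hM, -, -, -, hsum⟩ := id hw
  have hle := Pool.Agent.U605.ST.inter_le
    (Pool.Agent.U605.ST.chi_pos (expDim hw hP d) hC fun i => le_rfl)
  by_cases hne : MinusOne P C d w
  · have hnR : (36 : ℝ) ≤ n := by exact_mod_cast hn
    have hs : 0 ≤ √(n : ℝ) := Real.sqrt_nonneg _
    have hM0 : 0 < M := by
      by_contra hcon
      have h0 : M = 0 := by omega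
      subst h0
      simp only [Nat.cast_zero, mul_zero] at hM
      linarith
    refine Pool.Agent.U605.ST.not_minus_one hn hM0 hcard (hsum.trans ?_) hne.self hne.canonical
    have hMR : (0 : ℝ) ≤ M := Nat.cast_nonneg _
    nlinarith
  · have hh : 36 ≤ h := by
      have h1 := (Finset.univ.filter fun i => w i = M).card_le_univ
      rw [hcard, Fintype.card_fin] at h1
      omega
    obtain ⟨r, rfl⟩ : ∃ r, h = r + 4 := ⟨h - 4, by omega⟩
    obtain ⟨h1, h2, h3⟩ := SH.curve_iff.1 hC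
    have hne' : ¬ (SH.ip d w d w = -1 ∧ SH.kk d w = 1) := fun h0 =>
      hne ⟨hC, by rw [SH.inter_eq, h0.1], by rw [SH.interK_eq, h0.2]⟩
    rw [SH.inter_eq] at hneg hle
    rw [SH.interK_eq] at hle
    obtain ⟨b0, -⟩ := Pool.Agent.R355.CanDeg.main hP ⟨⟨C, h1, h2, h3⟩, hne'⟩
      (k := -SH.ip d w d w) (κ := -SH.kk d w) (by ring) (by linarith) (by ring)
    linarith

/-- the inequality for smaller vectors with a packed tail -/
theorem bound {h : ℕ} {v u : Fin h → ℕ} (hv : PackedTail v) (hvu : ∀ i, v i ≤ u i)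
    {P : Fin h → Fin 2 → ℂ}
    (hP : AlgebraicIndependent ℚ (fun ij : Fin h × Fin 2 => P ij.1 ij.2)) {e : ℕ}
    {G : MvPolynomial (Fin 3) ℂ} (hG : Curve P G e u) :
    ∑ i, v i * (v i + 1) ≤ e * (e + 3) := by
  have h1 := Pool.Agent.U605.ST.chi_pos (expDim hv hP e) hG hvu
  have h2 : ∀ m : ℕ, (m + 1).choose 2 * 2 = m * (m + 1) := by
    intro m
    rw [Nat.choose_two_right, Nat.add_sub_cancel, Nat.div_mul_cancel
      (by rw [mul_comm]; exact (Nat.even_mul_succ_self m).two_dvd)]
    ring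
  have h3 := h2 (e + 1)
  have h4 : (∑ i, (v i + 1).choose 2) * 2 = ∑ i, v i * (v i + 1) := by
    rw [Finset.sum_mul]
    exact Finset.sum_congr rfl fun i _ => h2 (v i)
  rw [← h4]
  have h5 : (e + 1) * (e + 1 + 1) = e * (e + 3) + 2 := by ring
  rw [h5] at h3
  have h6 : (e + 1 + 1).choose 2 = (e + 2).choose 2 := rfl
  rw [h6] at h3
  omega

theorem result (h : ℕ) :
    ∃ Z : ℕ → MvPolynomial (Fin h × Fin 2) ℂ, (∀ k, Z k ≠ 0) ∧
      ∀ P : Fin h → Fin 2 → ℂ,
        (∀ k, MvPolynomial.eval (fun ij : Fin h × Fin 2 => P ij.1 ij.2) (Z k) ≠ 0) →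
        (∀ (d : ℕ) (w : Fin h → ℕ) (C : MvPolynomial (Fin 3) ℂ), Curve P C d w →
          PackedTail w → 0 ≤ inter d w d w) ∧
        closedCone (curveClasses P) ⊆
          closedCone (minusOneClasses P ∪ positive h ∪ farClasses P) := by
  obtain ⟨Z, hZ, hh⟩ := SH.exists_fam (Fin h × Fin 2)
  refine ⟨Z, hZ, fun p hp => ⟨fun d w C hC hw => no_neg hw ((hh _).1 hp) hC,
    closure_mono (Submodule.span_mono ?_)⟩⟩
  rintro v (⟨C, d, w, hC, rfl⟩ | ⟨i, rfl⟩)
  · by_cases hneg : inter d w d w < 0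
    · by_cases hne : MinusOne p C d w
      · refine Or.inl (Or.inl ⟨Or.inl ⟨C, d, w, hC, rfl⟩, ?_, ?_⟩)
        · have h1 := hne.self
          unfold inter at h1
          have h2 : (((d : ℤ) * d - ∑ i, (w i : ℤ) * w i : ℤ) : ℝ) = ((-1 : ℤ) : ℝ) := by rw [h1]
          push_cast at h2
          simp only
          rw [Finset.sum_congr rfl fun i _ => sq (w i : ℝ), sq]
          exact h2
        · have h1 := hne.canonical
          unfold interK at h1
          have h2 : ((-3 * (d : ℤ) + ∑ i, (w i : ℤ) : ℤ) : ℝ) = ((-1 : ℤ) : ℝ) := by rw [h1]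
          push_cast at h2
          exact h2
      · right
        refine ⟨C, d, w, hC, hneg, fun b hb => ?_, rfl⟩
        have hP := (hh _).1 hp
        obtain ⟨h1, h2, h3⟩ := SH.curve_iff.1 hC
        have hne' : ¬ (SH.ip d w d w = -1 ∧ SH.kk d w = 1) := fun h0 =>
          hne ⟨hC, by rw [SH.inter_eq, h0.1], by rw [SH.interK_eq, h0.2]⟩
        obtain ⟨e, u, rfl, ⟨⟨G, g1, g2, g3⟩, -⟩, hip⟩ :=
          Pool.Agent.R355.NegOrb.Irr.orbit hP ⟨⟨C, h1, h2, h3⟩, hne'⟩ hb
        have hG : Curve p G e u := SH.curve_iff.2 ⟨g1, g2, g3⟩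
        refine ⟨e, u, G, rfl, hG, fun hu => ?_, fun v hv hvu => bound hv hvu hP hG⟩
        have h4 := no_neg hu hP hG
        rw [SH.inter_eq] at h4 hneg
        rw [hip] at h4
        linarith
    · refine Or.inl (Or.inr ⟨Nat.cast_nonneg d, ?_⟩)
      push Not at hneg
      unfold inter at hneg
      have h2 : (0 : ℝ) ≤ (((d : ℤ) * d - ∑ i, (w i : ℤ) * w i : ℤ) : ℝ) := by exact_mod_cast hneg
      push_cast at h2
      simp only
      rw [Finset.sum_congr rfl fun i _ => sq (w i : ℝ), sq]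
      linarith
  · refine Or.inl (Or.inl ⟨Or.inr ⟨i, rfl⟩, ?_, ?_⟩)
    · simp only
      rw [Finset.sum_eq_single i]
      · rw [Pi.single_eq_same]
        norm_num
      · intro b _ hb
        rw [Pi.single_eq_of_ne hb]
        norm_num
      · intro h1
        exact absurd (Finset.mem_univ i) h1
    · simp only
      rw [Finset.sum_eq_single i]
      · rw [Pi.single_eq_same]
        norm_num
      · intro b _ hb
        rw [Pi.single_eq_of_ne hb]
      · intro h1
        exact absurd (Finset.mem_univ i) h1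

end Pool.Agent.Results.MP_309968_ag.PackedTailCurves
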