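import Mathlib
import Pool.Agent.U656.NC.Sym

set_option autoImplicit false

/-!
# The cone of curves on symmetric slices

For very general points let `T` be a set of `0`, `3`, `5`, `6`, `7` or `8` points, and let the other
points (at least `36`) be divided into classes of at least `144` points each, or not divided. A
class of `N_1(X)` which lies in the closed cone of curves and whose coefficients are constant on
`T` and on each of the classes lies in the closed cone spanned by the positive cone and the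
`(-1)`-curves.
-/

namespace Pool.Agent.Results.MP_309968_ag.SymmetricSlices

open Pool.Agent.R355.ConeAct Pool.Agent.U656.NC

theorem result (n : ℕ) :
    ∃ f : ℕ → MvPolynomial (Fin n × Fin 2) ℂ, (∀ k, f k ≠ 0) ∧
      ∀ P : Fin n → Fin 2 → ℂ,
        (∀ k, MvPolynomial.eval (fun q : Fin n × Fin 2 => P q.1 q.2) (f k) ≠ 0) →
        ∀ T : Finset (Fin n), T.card ∈ ({0, 3, 5, 6, 7, 8} : Finset ℕ) → T.card + 36 ≤ n →
          -- the cone of curves
          (∀ B : Fin n → ℕ,
            ((∀ j ∉ T, 144 ≤ (Finset.univ.filter fun i => i ∉ T ∧ B i = B j).card) ∨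
              ∀ i ∉ T, ∀ j ∉ T, B i = B j) →
            ∀ x ∈ curvCone P, (∀ i ∈ T, ∀ j ∈ T, x.2 i = x.2 j) →
              (∀ i ∉ T, ∀ j ∉ T, B i = B j → x.2 i = x.2 j) → x ∈ bigCone P) ∧
          -- the dual cone
          (∀ D : ℝ × (Fin n → ℝ), (∀ i ∈ T, ∀ j ∈ T, D.2 i = D.2 j) → Often D.2 T →
            (∀ x ∈ bigCone P, 0 ≤ dot D x) → ∀ x ∈ curvCone P, 0 ≤ dot D x) := by
  obtain ⟨f, hf, h⟩ := Pool.Agent.TH167.SH.exists_fam (Fin n × Fin 2)
  obtain ⟨g, hg, h'⟩ := fills n
  obtain ⟨F, hF, hF'⟩ := two_conds hf hg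
  refine ⟨F, hF, fun P hP0 T hT hn => ?_⟩
  have hP := (h _).1 (hF' _ hP0).1
  have hFills := h' P (hF' _ hP0).2
  refine ⟨fun B hB x hx hxT hxB => sym_slice hP hFills hn hT hB hx hxT hxB,
    fun D hDT hoft hD => ?_⟩
  have hpos := pos_of_dual (D := D) fun y h1 h2 => hD y (gen_mem_bigCone (Or.inr ⟨h1, h2⟩))
  have hneg : MinusOneNonneg P D := fun y hy h1 h2 =>
    hD y (gen_mem_bigCone (Or.inl ⟨hy, h1, h2⟩))
  have hu : ∃ u, ∀ i ∈ T, D.2 i = u := by
    rcases T.eq_empty_or_nonempty with hTe | ⟨t, ht⟩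
    · exact ⟨0, fun i hi => by rw [hTe] at hi; exact absurd hi (Finset.notMem_empty i)⟩
    · exact ⟨D.2 t, fun i hi => hDT i hi t ht⟩
  obtain ⟨u, hu⟩ := hu
  exact slice hP hFills hn hT hpos.1 hpos.2 hu hoft hneg

end Pool.Agent.Results.MP_309968_ag.SymmetricSlices
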